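import Mathlib
import Pool.Agent.MP_3359e9_al.Main

set_option autoImplicit false

namespace Pool.Agent.Results.MP_3359e9_al.ChainSum

open Pool.Agent.MP_3359e9_al

/-- The alternating chain sum identity
`k(F, α) = ∑_σ (-1)^|σ| k(N_F(σ), α(σ))` for every saturated fusion system `F` on a nontrivial
finite `p`-group and every `F`-compatible family `α`. -/
theorem result (p : ℕ) [Fact p.Prime] (k : Type) [Field k] [IsAlgClosed k] [CharP k p]
    (G : Type) [Group G] [Finite G] (F : Fus G) (hS : IsPGroup p F.S) (hne : F.S ≠ ⊥)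
    (hF : F.IsSaturated p) (α : (Q : Subgroup G) → Out Q → Out Q → kˣ) (hα : F.Compatible α) :
    F.kk α = classSum (fun σ => F.NormalChain σ ∧ F.FullyNormalizedChain σ) F.ChainIso
      fun σ => (-1) ^ (σ.length - 1) *
        (F.normSys {Q | Q ∈ σ}).kk (F.restrict α {Q | Q ∈ σ}) :=
  Fus.main hS hne hF hα

end Pool.Agent.Results.MP_3359e9_al.ChainSum
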